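import Pool.Agent.H31.QC

open Pool.Agent.H31.QC

theorem Pool.Agent.Results.MP_aa6101_gt.Neg.result :
    ∃ (X : Type) (_ : TopologicalSpace X), T35Space X ∧ Uncountable X ∧
      FrechetUrysohnSpace {f : X → ℝ // Quasi f} ∧ ¬ Lusin X :=
  main
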